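import Mathlib

namespace Pool.Agent.MP_591151_lc

/-- `c` is distinguishing: only the identity automorphism preserves every colour. -/
def IsDistinguishing {X I : Type} (G : SimpleGraph X) (c : X → I) : Prop :=
  ∀ φ : G ≃g G, (∀ x, c (φ x) = c x) → ∀ x, φ x = x

/-- The distinguishing number. -/
noncomputable def distNumber {X : Type} (G : SimpleGraph X) : Cardinal.{0} :=
  sInf {κ : Cardinal.{0} | ∃ (I : Type) (c : X → I), IsDistinguishing G c ∧ Cardinal.mk I = κ}

/-- The Borel distinguishing number. -/
noncomputable def borelDistNumber {X : Type} [MeasurableSpace X] (G : SimpleGraph X) :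
    Cardinal.{0} :=
  sInf {κ : Cardinal.{0} | ∃ (I : Type) (_ : MeasurableSpace I) (_ : StandardBorelSpace I)
    (c : X → I), Measurable c ∧ IsDistinguishing G c ∧ Cardinal.mk I = κ}

end Pool.Agent.MP_591151_lc
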