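import Mathlib

namespace Pool.Agent.MP_591151_lc

/-- finite colour preserving fixed point free involutive local isomorphisms -/
structure Loc {Γ I : Type} (adj : Γ → Γ → Prop) (col : Γ → I) where
  D : Finset Γ
  f : Γ → Γ
  mem : ∀ a ∈ D, f a ∈ D
  inv : ∀ a ∈ D, f (f a) = a
  ne : ∀ a ∈ D, f a ≠ a
  colp : ∀ a ∈ D, col (f a) = col a
  adjp : ∀ a ∈ D, ∀ b ∈ D, (adj (f a) (f b) ↔ adj a b)

theorem Loc.step {Γ I : Type} {adj : Γ → Γ → Prop} {col : Γ → I}
    (hsymm : ∀ a b, adj a b → adj b a) (hirr : ∀ a, ¬ adj a a)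
    (hext : ∀ (U W : Finset Γ) (v : Γ), ∃ z, z ∉ W ∧ col z = col v ∧ ∀ w ∈ W, (adj w z ↔ w ∈ U))
    (L : Loc adj col) (v : Γ) :
    ∃ L' : Loc adj col, v ∈ L'.D ∧ L.D ⊆ L'.D ∧ ∀ a ∈ L.D, L'.f a = L.f a := by
  classical
  by_cases hv : v ∈ L.D
  · exact ⟨L, hv, subset_rfl, fun _ _ => rfl⟩
  obtain ⟨z, hzW, hzc, hz⟩ := hext (L.D.filter fun w => adj (L.f w) v) (insert v L.D) v
  have hzv : z ≠ v := fun h => hzW (h ▸ Finset.mem_insert_self _ _)
  have hzD : z ∉ L.D := fun h => hzW (Finset.mem_insert_of_mem h)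
  have hz' : ∀ w ∈ L.D, (adj w z ↔ adj (L.f w) v) := by
    intro w hw
    rw [hz w (Finset.mem_insert_of_mem hw)]
    simp [hw]
  have hiff : ∀ a b, adj a b ↔ adj b a := fun a b => ⟨hsymm a b, hsymm b a⟩
  let g : Γ → Γ := fun a => if a = v then z else if a = z then v else L.f a
  have gv : g v = z := by simp [g]
  have gz : g z = v := by simp [g, hzv]
  have gD : ∀ a ∈ L.D, g a = L.f a := by
    intro a ha
    have h1 : a ≠ v := fun h => hv (h ▸ ha)
    have h2 : a ≠ z := fun h => hzD (h ▸ ha)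
    simp [g, h1, h2]
  refine ⟨⟨insert v (insert z L.D), g, ?_, ?_, ?_, ?_, ?_⟩, by simp, ?_, gD⟩
  · intro a ha
    simp only [Finset.mem_insert] at ha ⊢
    rcases ha with rfl | rfl | ha
    · simp [gv]
    · simp [gz]
    · rw [gD a ha]; exact Or.inr (Or.inr (L.mem a ha))
  · intro a ha
    simp only [Finset.mem_insert] at ha
    rcases ha with rfl | rfl | ha
    · rw [gv, gz]
    · rw [gz, gv]
    · rw [gD a ha, gD _ (L.mem a ha), L.inv a ha]
  · intro a ha
    simp only [Finset.mem_insert] at ha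
    rcases ha with rfl | rfl | ha
    · rw [gv]; exact hzv
    · rw [gz]; exact hzv.symm
    · rw [gD a ha]; exact L.ne a ha
  · intro a ha
    simp only [Finset.mem_insert] at ha
    rcases ha with rfl | rfl | ha
    · rw [gv]; exact hzc
    · rw [gz]; exact hzc.symm
    · rw [gD a ha]; exact L.colp a ha
  · have k1 : ∀ b ∈ L.D, (adj z (L.f b) ↔ adj v b) := by
      intro b hb
      rw [hiff, hz' _ (L.mem b hb), L.inv b hb, hiff]
    have k2 : ∀ b ∈ L.D, (adj v (L.f b) ↔ adj z b) := by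
      intro b hb
      rw [hiff z b, hz' b hb, hiff]
    intro a ha b hb
    simp only [Finset.mem_insert] at ha hb
    rcases ha with rfl | rfl | ha <;> rcases hb with hb | hb | hb
    · subst hb; rw [gv]; simp [hirr]
    · subst hb; rw [gv, gz]; exact hiff _ _
    · rw [gv, gD b hb]; exact k1 b hb
    · subst hb; rw [gv, gz]; exact hiff _ _
    · subst hb; rw [gz]; simp [hirr]
    · rw [gz, gD b hb]; exact k2 b hb
    · subst hb; rw [gv, gD a ha, hiff, k1 a ha, hiff]
    · subst hb; rw [gz, gD a ha, hiff, k2 a ha, hiff]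
    · rw [gD a ha, gD b hb]; exact L.adjp a ha b hb
  · intro a ha
    simp [ha]

/-- back and forth: a colour preserving fixed point free involutive automorphism -/
theorem exists_invol {Γ I : Type} [Countable Γ] [Nonempty Γ] {adj : Γ → Γ → Prop} {col : Γ → I}
    (hsymm : ∀ a b, adj a b → adj b a) (hirr : ∀ a, ¬ adj a a)
    (hext : ∀ (U W : Finset Γ) (v : Γ), ∃ z, z ∉ W ∧ col z = col v ∧ ∀ w ∈ W, (adj w z ↔ w ∈ U)) :
    ∃ f : Γ → Γ, (∀ a, f (f a) = a) ∧ (∀ a, f a ≠ a) ∧ (∀ a, col (f a) = col a) ∧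
      ∀ a b, (adj (f a) (f b) ↔ adj a b) := by
  classical
  obtain ⟨e, he⟩ := exists_surjective_nat Γ
  choose st h1 h2 h3 using Loc.step hsymm hirr hext
  let L0 : Loc adj col := ⟨∅, id, by simp, by simp, by simp, by simp, by simp⟩
  let L : ℕ → Loc adj col := fun n => Nat.rec L0 (fun k Lk => st Lk (e k)) n
  have Ls : ∀ n, L (n + 1) = st (L n) (e n) := fun n => rfl
  have mono : ∀ n m, n ≤ m → (L n).D ⊆ (L m).D ∧ ∀ a ∈ (L n).D, (L m).f a = (L n).f a := by
    intro n m hnm
    induction m, hnm using Nat.le_induction with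
    | base => exact ⟨subset_rfl, fun _ _ => rfl⟩
    | succ m hm ih =>
      refine ⟨ih.1.trans (by rw [Ls]; exact h2 _ _), fun a ha => ?_⟩
      rw [Ls, h3 _ _ a (ih.1 ha), ih.2 a ha]
  choose idx hidx using he
  have hmem : ∀ a, a ∈ (L (idx a + 1)).D := by
    intro a
    have := h1 (L (idx a)) (e (idx a))
    rw [Ls]
    convert this using 1
    exact (hidx a).symm
  let f : Γ → Γ := fun a => (L (idx a + 1)).f a
  have key : ∀ a n, a ∈ (L n).D → f a = (L n).f a := by
    intro a n ha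
    rcases le_total n (idx a + 1) with h | h
    · exact (mono _ _ h).2 a ha
    · exact ((mono _ _ h).2 a (hmem a)).symm
  refine ⟨f, fun a => ?_, fun a => (L (idx a + 1)).ne a (hmem a),
    fun a => (L (idx a + 1)).colp a (hmem a),
    fun a b => ?_⟩
  · have ha := hmem a
    rw [key (f a) (idx a + 1) ((L (idx a + 1)).mem a ha)]
    exact (L (idx a + 1)).inv a ha
  · have ha : a ∈ (L (max (idx a + 1) (idx b + 1))).D := (mono _ _ (le_max_left _ _)).1 (hmem a)
    have hb : b ∈ (L (max (idx a + 1) (idx b + 1))).D := (mono _ _ (le_max_right _ _)).1 (hmem b)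
    rw [key a _ ha, key b _ hb]
    exact (L _).adjp a ha b hb

end Pool.Agent.MP_591151_lc
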