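import Mathlib
import Pool.Agent.MP_591151_lc.Defs

namespace Pool.Agent.MP_591151_lc

/-- the adjacency pattern of the vertex with code `k` to the `m`-th point of the ray -/
def pat (r : ℕ → Bool) (k m : ℕ) : Prop :=
  (Nat.unpair m).1 = k ∧
    ((Nat.unpair (Nat.unpair m).2).1 = 0 ∨ r ((Nat.unpair (Nat.unpair m).2).1 - 1) = true)

theorem le_pair3 (a i j : ℕ) : j ≤ Nat.pair a (Nat.pair i j) :=
  (Nat.right_le_pair i j).trans (Nat.right_le_pair a _)

theorem pat_inj {r r' : ℕ → Bool} {k k' : ℕ}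
    (h : ∀ m, k ≤ m → k' ≤ m → (pat r k m ↔ pat r' k' m)) : k = k' ∧ r = r' := by
  have h1 : k = k' := by
    have := (h (Nat.pair k (Nat.pair 0 (k + k'))) (le_trans (by omega) (le_pair3 _ _ _))
      (le_trans (by omega) (le_pair3 _ _ _))).1 (by simp [pat])
    simpa [pat] using this
  subst h1
  refine ⟨rfl, funext fun n => ?_⟩
  have := h (Nat.pair k (Nat.pair (n + 1) k)) (le_pair3 _ _ _) (le_pair3 _ _ _)
  simp only [pat, Nat.unpair_pair, true_and, Nat.add_eq_zero_iff, one_ne_zero, and_false,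
    false_or, Nat.add_sub_cancel] at this
  exact Bool.eq_iff_iff.2 this

theorem pat_ex (r : ℕ → Bool) (k : ℕ) : ∃ m, k ≤ m ∧ pat r k m :=
  ⟨Nat.pair k (Nat.pair 0 k), le_pair3 _ _ _, by simp [pat]⟩

/-- a ray in a graph with the extension property, with prescribed traces -/
theorem exists_ray {Γ : Type} [Denumerable Γ] {adj : Γ → Γ → Prop}
    (hext : ∀ (U W : Finset Γ), ∃ z, z ∉ W ∧ ∀ w ∈ W, (adj w z ↔ w ∈ U)) (r : ℕ → Bool) :
    ∃ p : ℕ → Γ, Function.Injective p ∧ (∀ n m, n < m → (adj (p n) (p m) ↔ n + 1 = m)) ∧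
      (∀ m, p m ≠ Denumerable.ofNat Γ 0) ∧
      ∀ u, u ∉ Set.range p → ∀ m, Encodable.encode u ≤ m →
        (adj u (p m) ↔ pat r (Encodable.encode u) m) := by
  classical
  choose z hz1 hz2 using hext
  let W : ℕ → (ℕ → Γ) → Finset Γ := fun m q =>
    (Finset.range m).image q ∪ (Finset.range (m + 1)).image (Denumerable.ofNat Γ)
  let U : ℕ → (ℕ → Γ) → Finset Γ := fun m q =>
    (W m q).filter fun w => (0 < m ∧ w = q (m - 1)) ∨
      (w ∉ (Finset.range m).image q ∧ pat r (Encodable.encode w) m)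
  let s : ℕ → (ℕ → Γ) := fun n => Nat.rec (fun _ => Denumerable.ofNat Γ 0)
    (fun m q => Function.update q m (z (U m q) (W m q))) n
  have hs : ∀ m, s (m + 1) = Function.update (s m) m (z (U m (s m)) (W m (s m))) := fun m => rfl
  let p : ℕ → Γ := fun m => z (U m (s m)) (W m (s m))
  have hsp : ∀ m n, n < m → s m n = p n := by
    intro m
    induction m with
    | zero => intro n hn; omega
    | succ m ih =>
      intro n hn
      rw [hs]
      by_cases h : n = m
      · subst h; simp [p]
      · rw [Function.update_of_ne h]; exact ih n (by omega)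
  have himg : ∀ m, (Finset.range m).image (s m) = (Finset.range m).image p := by
    intro m
    exact Finset.image_congr fun n hn => hsp m n (by simpa using hn)
  have hW : ∀ m, W m (s m) =
      (Finset.range m).image p ∪ (Finset.range (m + 1)).image (Denumerable.ofNat Γ) := by
    intro m; simp only [W, himg]
  have hpW : ∀ m, p m ∉ W m (s m) := fun m => hz1 _ _
  have hlt : ∀ n m, n < m → p n ≠ p m := by
    intro n m hnm h
    apply hpW m
    rw [hW, ← h]
    exact Finset.mem_union_left _ (Finset.mem_image_of_mem _ (by simpa using hnm))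
  have hinj : Function.Injective p := by
    intro n m h
    rcases lt_trichotomy n m with h' | h' | h'
    · exact absurd h (hlt n m h')
    · exact h'
    · exact absurd h.symm (hlt m n h')
  have hU : ∀ m w, w ∈ W m (s m) → (adj w (p m) ↔ ((0 < m ∧ w = p (m - 1)) ∨
      (w ∉ (Finset.range m).image p ∧ pat r (Encodable.encode w) m))) := by
    intro m w hw
    rw [hz2 (U m (s m)) (W m (s m)) w hw]
    simp only [U, Finset.mem_filter, hw, true_and, himg]
    refine or_congr (and_congr_right fun hm => ?_) Iff.rfl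
    rw [hsp m (m - 1) (by omega)]
  refine ⟨p, hinj, fun n m hnm => ?_, fun m h => ?_, fun u hu m hm => ?_⟩
  · have hn : p n ∈ (Finset.range m).image p := Finset.mem_image_of_mem _ (by simpa using hnm)
    rw [hU m (p n) (by rw [hW]; exact Finset.mem_union_left _ hn)]
    simp only [hn, not_true_eq_false, false_and, or_false, hinj.eq_iff]
    omega
  · apply hpW m
    rw [hW, h]
    exact Finset.mem_union_right _ (Finset.mem_image_of_mem _ (by simp))
  · have huW : u ∈ W m (s m) := by
      rw [hW]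
      refine Finset.mem_union_right _ (Finset.mem_image.2 ⟨Encodable.encode u, ?_, by simp⟩)
      simp only [Finset.mem_range]; omega
    rw [hU m u huW]
    have h1 : ¬ (0 < m ∧ u = p (m - 1)) := fun h => hu ⟨m - 1, h.2.symm⟩
    have h2 : u ∉ (Finset.range m).image p := by
      intro h
      obtain ⟨n, _, hn⟩ := Finset.mem_image.1 h
      exact hu ⟨n, hn⟩
    simp [h1, h2]

/-- a disjoint union of at most continuum many copies of a countable graph with the
extension property has a distinguishing two-colouring -/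
theorem exists_two_colouring {Q Γ : Type} [Denumerable Γ] {adj : Γ → Γ → Prop}
    (hsymm : ∀ a b, adj a b → adj b a) (hirr : ∀ a, ¬ adj a a)
    (hext : ∀ (U W : Finset Γ), ∃ z, z ∉ W ∧ ∀ w ∈ W, (adj w z ↔ w ∈ U))
    (ρ : Q → (ℕ → Bool)) (hρ : Function.Injective ρ) (H : SimpleGraph (Q × Γ))
    (hH : ∀ x y, H.Adj x y ↔ x.1 = y.1 ∧ adj x.2 y.2) :
    ∃ c : Q × Γ → Bool, IsDistinguishing H c := by
  classical
  choose p hinj hray h0 htr using exists_ray hext
  let P : Q → ℕ → Q × Γ := fun q m => (q, p (ρ q) m)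
  have hPadj : ∀ q n q' m, H.Adj (P q n) (P q' m) ↔ q = q' ∧ (n + 1 = m ∨ m + 1 = n) := by
    intro q n q' m
    rw [hH]
    refine and_congr_right fun hq => ?_
    have hq' : q = q' := hq
    subst hq'
    show adj (p (ρ q) n) (p (ρ q) m) ↔ _
    rcases lt_trichotomy n m with h | h | h
    · rw [hray _ n m h]; omega
    · subst h; simp [hirr]
    · rw [show adj (p (ρ q) n) (p (ρ q) m) ↔ adj (p (ρ q) m) (p (ρ q) n) from
        ⟨hsymm _ _, hsymm _ _⟩, hray _ m n h]; omega
  have hPinj : ∀ q n q' m, P q n = P q' m → q = q' ∧ n = m := by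
    intro q n q' m h
    have h1 : q = q' := congrArg Prod.fst h
    subst h1
    exact ⟨rfl, hinj _ (congrArg Prod.snd h)⟩
  let c : Q × Γ → Bool := fun x => decide (x.2 ∈ Set.range (p (ρ x.1)))
  have hc : ∀ x, c x = true ↔ ∃ q m, x = P q m := by
    intro x
    simp only [c, decide_eq_true_eq]
    constructor
    · rintro ⟨m, hm⟩
      exact ⟨x.1, m, Prod.ext rfl hm.symm⟩
    · rintro ⟨q, m, rfl⟩
      exact ⟨m, rfl⟩
  refine ⟨c, fun φ hφ => ?_⟩
  have hφs : ∀ x, c (φ.symm x) = c x := by
    intro x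
    have := hφ (φ.symm x)
    rw [RelIso.apply_symm_apply] at this
    exact this.symm
  have hfw : ∀ q m, ∃ q' m', φ (P q m) = P q' m' := fun q m =>
    (hc _).1 (by rw [hφ]; exact (hc _).2 ⟨q, m, rfl⟩)
  have hbw : ∀ q m, ∃ q' m', φ (P q' m') = P q m := by
    intro q m
    obtain ⟨q', m', h⟩ := (hc (φ.symm (P q m))).1 (by rw [hφs]; exact (hc _).2 ⟨q, m, rfl⟩)
    exact ⟨q', m', by rw [← h, RelIso.apply_symm_apply]⟩
  have hstart : ∀ q, ∃ q', φ (P q 0) = P q' 0 := by
    intro q
    obtain ⟨q', k, hk⟩ := hfw q 0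
    refine ⟨q', ?_⟩
    rcases Nat.eq_zero_or_pos k with rfl | hpos
    · exact hk
    exfalso
    obtain ⟨q1, m1, h1⟩ := hbw q' (k - 1)
    obtain ⟨q2, m2, h2⟩ := hbw q' (k + 1)
    have a1 : H.Adj (P q 0) (P q1 m1) := by
      rw [← φ.map_adj_iff, hk, h1, hPadj]; exact ⟨rfl, by omega⟩
    have a2 : H.Adj (P q 0) (P q2 m2) := by
      rw [← φ.map_adj_iff, hk, h2, hPadj]; exact ⟨rfl, by omega⟩
    rw [hPadj] at a1 a2
    obtain ⟨rfl, a1⟩ := a1
    obtain ⟨rfl, a2⟩ := a2
    have e1 : m1 = 1 := by omega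
    have e2 : m2 = 1 := by omega
    subst e1 e2
    have := (hPinj _ _ _ _ (h1.symm.trans h2)).2
    omega
  have hall : ∀ q q', φ (P q 0) = P q' 0 → ∀ m, φ (P q m) = P q' m := by
    intro q q' h00 m
    induction m using Nat.strong_induction_on with
    | _ m ih =>
      rcases Nat.eq_zero_or_pos m with rfl | hpos
      · exact h00
      obtain ⟨q1, k, hk⟩ := hfw q m
      have hprev := ih (m - 1) (by omega)
      have a1 : H.Adj (P q' (m - 1)) (P q1 k) := by
        rw [← hprev, ← hk, φ.map_adj_iff, hPadj]; exact ⟨rfl, by omega⟩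
      rw [hPadj] at a1
      obtain ⟨rfl, a1⟩ := a1
      rcases a1 with a1 | a1
      · rw [hk]; congr 1; omega
      · exfalso
        have h2 := ih k (by omega)
        have := (hPinj _ _ _ _ (φ.injective (h2.trans hk.symm))).2
        omega
  have hnon : ∀ q q', (∀ m, φ (P q m) = P q' m) → ∀ u, u ∉ Set.range (p (ρ q)) →
      q = q' ∧ φ (q, u) = (q, u) := by
    intro q q' hq u hu
    obtain ⟨m0, hm0, hp0⟩ := pat_ex (ρ q) (Encodable.encode u)
    have a0 : H.Adj (q, u) (P q m0) := (hH _ _).2 ⟨rfl, (htr _ u hu m0 hm0).2 hp0⟩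
    have a1 : H.Adj (φ (q, u)) (P q' m0) := by rw [← hq, φ.map_adj_iff]; exact a0
    have e1 : (φ (q, u)).1 = q' := ((hH _ _).1 a1).1
    have hu' : (φ (q, u)).2 ∉ Set.range (p (ρ q')) := by
      intro h
      have : c (φ (q, u)) = true := by
        simp only [c, decide_eq_true_eq, e1]; exact h
      rw [hφ] at this
      simp only [c, decide_eq_true_eq] at this
      exact hu this
    have hpat := pat_inj (r := ρ q) (r' := ρ q') (k := Encodable.encode u)
      (k' := Encodable.encode (φ (q, u)).2) (by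
        intro m hm hm'
        rw [← htr _ u hu m hm, ← htr _ _ hu' m hm']
        have := φ.map_adj_iff (v := (q, u)) (w := P q m)
        rw [hq, hH, hH] at this
        simpa [P, e1] using this.symm)
    have hqq : q = q' := hρ hpat.2
    refine ⟨hqq, Prod.ext (e1.trans hqq.symm) ?_⟩
    exact (Encodable.encode_injective hpat.1).symm
  rintro ⟨q, u⟩
  obtain ⟨q', hq'⟩ := hstart q
  have hq := hall q q' hq'
  have hqq : q = q' := (hnon q q' hq (Denumerable.ofNat Γ 0)
    (fun ⟨m, hm⟩ => h0 _ m hm)).1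
  subst hqq
  by_cases hu : u ∈ Set.range (p (ρ q))
  · obtain ⟨m, rfl⟩ := hu
    exact hq m
  · exact (hnon q q hq u hu).2

end Pool.Agent.MP_591151_lc
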