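import Mathlib
import Pool.Agent.MP_591151_lc.Defs
import Pool.Agent.MP_591151_lc.Invol
import Pool.Agent.MP_591151_lc.Rigid

namespace Pool.Agent.MP_591151_lc

open Set Filter

/-- flip the bits in a finite set -/
def flipBits (s : Finset ℕ) (x : ℕ → Bool) : ℕ → Bool := fun i => xor (x i) (decide (i ∈ s))

theorem flipBits_flipBits (s t : Finset ℕ) (x : ℕ → Bool) :
    flipBits s (flipBits t x) = flipBits (symmDiff s t) x := by
  funext i
  by_cases hs : i ∈ s <;> by_cases ht : i ∈ t <;> simp [flipBits, Finset.mem_symmDiff, hs, ht]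

theorem flipBits_empty (x : ℕ → Bool) : flipBits ∅ x = x := by
  funext i; simp [flipBits]

theorem flipBits_self (s : Finset ℕ) (x : ℕ → Bool) : flipBits s (flipBits s x) = x := by
  rw [flipBits_flipBits, symmDiff_self]; exact flipBits_empty x

theorem flipBits_inj {s t : Finset ℕ} {x : ℕ → Bool} (h : flipBits s x = flipBits t x) :
    s = t := by
  ext i
  have := congrFun h i
  by_cases hs : i ∈ s <;> by_cases ht : i ∈ t <;> simp_all [flipBits]

theorem continuous_flipBits (s : Finset ℕ) : Continuous (flipBits s) := by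
  refine continuous_pi fun i => ?_
  exact (continuous_of_discreteTopology (f := fun b : Bool => xor b (decide (i ∈ s)))).comp
    (continuous_apply i)

/-- flipping as a homeomorphism -/
def flipHomeo (s : Finset ℕ) : (ℕ → Bool) ≃ₜ (ℕ → Bool) where
  toFun := flipBits s
  invFun := flipBits s
  left_inv := flipBits_self s
  right_inv := flipBits_self s
  continuous_toFun := continuous_flipBits s
  continuous_invFun := continuous_flipBits s

/-- an enumeration of finite families of finite sets with infinite repetition -/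
def dec (N : ℕ) : Finset (Finset ℕ) := Denumerable.ofNat (Finset (Finset ℕ)) (Nat.unpair N).1

theorem dec_surj (F : Finset (Finset ℕ)) (k : ℕ) : ∃ N, k ≤ N ∧ dec N = F := by
  obtain ⟨a, ha⟩ := (Denumerable.eqv (Finset (Finset ℕ))).symm.surjective F
  exact ⟨Nat.pair a k, Nat.right_le_pair _ _, by rw [dec, Nat.unpair_pair]; exact ha⟩

/-- the connection set -/
def conn : Set (Finset ℕ) := {s | ∃ N, ∃ A ∈ dec N, (∀ i ∈ A, i < N) ∧ s = insert N A}

theorem empty_not_mem_conn : ∅ ∉ conn := by
  rintro ⟨N, A, -, -, h⟩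
  exact Finset.insert_ne_empty N A h.symm

theorem insert_mem_conn {N : ℕ} {B : Finset ℕ} (hB : ∀ i ∈ B, i < N) :
    insert N B ∈ conn ↔ B ∈ dec N := by
  constructor
  · rintro ⟨N', A, hA, hlt, h⟩
    have h1 : N ∈ insert N' A := h ▸ Finset.mem_insert_self _ _
    have h2 : N' ∈ insert N B := h.symm ▸ Finset.mem_insert_self _ _
    have hN : N = N' := by
      rcases Finset.mem_insert.1 h1 with h1 | h1
      · exact h1
      rcases Finset.mem_insert.1 h2 with h2 | h2
      · exact h2.symm
      have := hlt _ h1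
      have := hB _ h2
      omega
    subst hN
    have hA' : N ∉ A := fun h => lt_irrefl _ (hlt _ h)
    have hB' : N ∉ B := fun h => lt_irrefl _ (hB _ h)
    have : B = A := by
      rw [← Finset.erase_insert hA', ← h, Finset.erase_insert hB']
    rwa [this]
  · intro h
    exact ⟨N, B, h, hB, rfl⟩

/-- the dense extension property -/
theorem conn_ext (U W : Finset (Finset ℕ)) (t : Finset ℕ) (k : ℕ) :
    ∃ z, z ∉ W ∧ (∀ i < k, (i ∈ z ↔ i ∈ t)) ∧ ∀ w ∈ W, (symmDiff w z ∈ conn ↔ w ∈ U) := by
  obtain ⟨N, hN, hdec⟩ := dec_surj (U.image fun u => symmDiff u t)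
    (k + (W.sup fun w => w.sup id) + t.sup id + 1)
  have hW : ∀ w ∈ W, ∀ i ∈ w, i < N := by
    intro w hw i hi
    have h1 : i ≤ w.sup id := Finset.le_sup (f := id) hi
    have h2 : w.sup id ≤ W.sup fun w => w.sup id := Finset.le_sup (f := fun w => w.sup id) hw
    omega
  have ht : ∀ i ∈ t, i < N := by
    intro i hi
    have h1 : i ≤ t.sup id := Finset.le_sup (f := id) hi
    omega
  refine ⟨insert N t, fun h => lt_irrefl _ (hW _ h N (Finset.mem_insert_self _ _)), ?_, ?_⟩
  · intro i hi
    have : i ≠ N := by omega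
    simp [this]
  · intro w hw
    have hNw : N ∉ w := fun h => lt_irrefl _ (hW _ hw N h)
    have hNt : N ∉ t := fun h => lt_irrefl _ (ht N h)
    have e : symmDiff w (insert N t) = insert N (symmDiff w t) := by
      ext i
      by_cases hi : i = N
      · subst hi; simp [Finset.mem_symmDiff, hNw]
      · simp [Finset.mem_symmDiff, hi]
    rw [e, insert_mem_conn, hdec]
    · simp only [Finset.mem_image]
      constructor
      · rintro ⟨u, hu, h⟩
        rwa [← symmDiff_left_inj.1 h]
      · intro h; exact ⟨w, h, rfl⟩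
    · intro i hi
      rcases Finset.mem_symmDiff.1 hi with h | h
      · exact hW w hw i h.1
      · exact ht i h.1

/-- the Borel graph -/
def graph : SimpleGraph (ℕ → Bool) where
  Adj x y := ∃ s ∈ conn, y = flipBits s x
  symm := ⟨fun x y ⟨s, hs, h⟩ => ⟨s, hs, by rw [h, flipBits_self]⟩⟩
  loopless := ⟨fun x ⟨s, hs, h⟩ => by
    have : s = ∅ := flipBits_inj (x := x) (by rw [← h, flipBits_empty])
    exact empty_not_mem_conn (this ▸ hs)⟩

theorem measurableSet_graph : MeasurableSet {p : (ℕ → Bool) × (ℕ → Bool) | graph.Adj p.1 p.2} := by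
  have : {p : (ℕ → Bool) × (ℕ → Bool) | graph.Adj p.1 p.2} =
      ⋃ s ∈ conn, {p : (ℕ → Bool) × (ℕ → Bool) | p.2 = flipBits s p.1} := by
    ext p; simp [graph]
  rw [this]
  refine MeasurableSet.biUnion (Set.to_countable _) fun s _ => ?_
  exact (isClosed_eq continuous_snd ((continuous_flipBits s).comp continuous_fst)).measurableSet

/-- eventual equality -/
def orb : Setoid (ℕ → Bool) where
  r x y := ∃ s, y = flipBits s x
  iseqv := ⟨fun x => ⟨∅, (flipBits_empty x).symm⟩,
    fun ⟨s, h⟩ => ⟨s, by rw [h, flipBits_self]⟩,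
    fun ⟨s, h⟩ ⟨t, h'⟩ => ⟨symmDiff t s, by rw [h', h, flipBits_flipBits]⟩⟩

/-- coordinates -/
noncomputable def coord (y : Quotient orb × Finset ℕ) : ℕ → Bool := flipBits y.2 y.1.out

theorem mk_coord (y : Quotient orb × Finset ℕ) : Quotient.mk orb (coord y) = y.1 := by
  conv_rhs => rw [← Quotient.out_eq y.1]
  exact (Quotient.sound (s := orb) ⟨y.2, rfl⟩).symm

theorem coord_bij : Function.Bijective coord := by
  constructor
  · rintro ⟨q, s⟩ ⟨q', t⟩ h
    have h1 : q = q' := by
      have := mk_coord (q, s)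
      rw [h, mk_coord] at this
      exact this.symm
    subst h1
    exact Prod.ext rfl (flipBits_inj h)
  · intro x
    obtain ⟨s, hs⟩ : orb.r (Quotient.mk orb x).out x := Quotient.mk_out (s := orb) x
    exact ⟨(Quotient.mk orb x, s), hs.symm⟩

theorem adj_coord (y z : Quotient orb × Finset ℕ) :
    graph.Adj (coord y) (coord z) ↔ y.1 = z.1 ∧ symmDiff y.2 z.2 ∈ conn := by
  obtain ⟨q, a⟩ := y
  obtain ⟨q', b⟩ := z
  constructor
  · rintro ⟨s, hs, h⟩
    have h1 : q = q' := by
      have := Quotient.sound (s := orb) (a := coord (q, a)) (b := coord (q', b)) ⟨s, h⟩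
      rwa [mk_coord, mk_coord] at this
    subst h1
    refine ⟨rfl, ?_⟩
    simp only [coord, flipBits_flipBits] at h
    have := flipBits_inj h
    subst this
    simpa [symmDiff_comm s a, ← symmDiff_assoc] using hs
  · rintro ⟨h1, h2⟩
    have h1' : q = q' := h1
    subst h1'
    refine ⟨symmDiff a b, h2, ?_⟩
    simp only [coord, flipBits_flipBits]
    rw [symmDiff_comm a b, symmDiff_assoc, symmDiff_self, symmDiff_bot]

/-- the graph in coordinates -/
noncomputable def graph' : SimpleGraph (Quotient orb × Finset ℕ) := graph.comap coord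

/-- the isomorphism -/
noncomputable def iso : graph' ≃g graph where
  toEquiv := Equiv.ofBijective coord coord_bij
  map_rel_iff' := Iff.rfl

theorem IsDistinguishing.transport {X Y I : Type} {G : SimpleGraph X} {H : SimpleGraph Y}
    (e : G ≃g H) {c : X → I} (hc : IsDistinguishing G c) :
    IsDistinguishing H (fun y => c (e.symm y)) := by
  intro φ hφ y
  have := hc ((e.trans φ).trans e.symm) (fun x => by
    have := hφ (e x)
    simpa using this) (e.symm y)
  simpa using this

theorem exists_two : ∃ c : (ℕ → Bool) → Bool, IsDistinguishing graph c := by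
  obtain ⟨c, hc⟩ := exists_two_colouring (Q := Quotient orb) (Γ := Finset ℕ)
    (adj := fun a b => symmDiff a b ∈ conn) (fun a b h => by rwa [symmDiff_comm])
    (fun a h => empty_not_mem_conn (by simpa using h))
    (fun U W => by
      obtain ⟨z, h1, -, h2⟩ := conn_ext U W ∅ 0
      exact ⟨z, h1, h2⟩)
    Quotient.out Quotient.out_injective graph' (fun x y => adj_coord x y)
  exact ⟨_, hc.transport iso⟩

theorem exists_generic {I : Type} [Countable I] [MeasurableSpace I] [MeasurableSingletonClass I]
    {c : (ℕ → Bool) → I} (hc : Measurable c) :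
    ∃ x : ℕ → Bool, ∀ s : Finset ℕ, ∃ k : ℕ, ∀ t : Finset ℕ, (∀ i < k, (i ∈ t ↔ i ∈ s)) →
      c (flipBits t x) = c (flipBits s x) := by
  have h1 : ∀ i : I, ∃ O : Set (ℕ → Bool), IsOpen O ∧ (c ⁻¹' {i}) =ᶠ[residual _] O :=
    fun i => (hc (measurableSet_singleton i)).residualEq_isOpen
  choose O hO hres using h1
  have h2 : ∀ᶠ x in residual (ℕ → Bool), ∀ i, (c x = i ↔ x ∈ O i) := by
    rw [eventually_countable_forall]
    intro i
    exact (Filter.eventuallyEq_set.1 (hres i)).mono fun x hx => by simpa using hx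
  have h3 : ∀ᶠ x in residual (ℕ → Bool), ∀ s : Finset ℕ, ∀ i,
      (c (flipBits s x) = i ↔ flipBits s x ∈ O i) := by
    rw [eventually_countable_forall]
    intro s
    exact (tendsto_residual_of_isOpenMap (flipHomeo s).continuous (flipHomeo s).isOpenMap).eventually h2
  obtain ⟨x, hx⟩ := (dense_of_mem_residual h3).nonempty
  refine ⟨x, fun s => ?_⟩
  have hs : flipBits s x ∈ O (c (flipBits s x)) := (hx s _).1 rfl
  obtain ⟨J, u, hu, hsub⟩ := isOpen_pi_iff.1 (hO _) _ hs
  refine ⟨J.sup id + 1, fun t ht => (hx t _).2 (hsub fun i hi => ?_)⟩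
  have hi' : i ≤ J.sup id := Finset.le_sup (f := id) hi
  have : flipBits t x i = flipBits s x i := by
    simp only [flipBits, ht i (by omega)]
  rw [this]
  exact (hu i hi).2

theorem not_distinguishing {I : Type} [Countable I] [MeasurableSpace I]
    [MeasurableSingletonClass I] {c : (ℕ → Bool) → I} (hc : Measurable c) :
    ¬ IsDistinguishing graph c := by
  classical
  intro hd
  obtain ⟨x, hx⟩ := exists_generic hc
  obtain ⟨⟨q, a⟩, rfl⟩ := coord_bij.2 x
  have hloc : ∀ s : Finset ℕ, ∃ k : ℕ, ∀ t : Finset ℕ, (∀ i < k, (i ∈ t ↔ i ∈ s)) →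
      c (coord (q, t)) = c (coord (q, s)) := by
    intro s
    obtain ⟨k, hk⟩ := hx (symmDiff s a)
    refine ⟨k, fun t ht => ?_⟩
    have := hk (symmDiff t a) (fun i hi => by simp [Finset.mem_symmDiff, ht i hi])
    simpa [coord, flipBits_flipBits, symmDiff_assoc] using this
  obtain ⟨f, hf1, hf2, hf3, hf4⟩ := exists_invol (Γ := Finset ℕ)
    (adj := fun a b => symmDiff a b ∈ conn) (col := fun s => c (coord (q, s)))
    (fun a b h => by rwa [symmDiff_comm])
    (fun a h => empty_not_mem_conn (by simpa using h))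
    (fun U W v => by
      obtain ⟨k, hk⟩ := hloc v
      obtain ⟨z, h1, h2, h3⟩ := conn_ext U W v k
      exact ⟨z, h1, hk z h2, h3⟩)
  let g : Quotient orb × Finset ℕ → Quotient orb × Finset ℕ :=
    fun y => (y.1, if y.1 = q then f y.2 else y.2)
  have hg : Function.Involutive g := by
    rintro ⟨q', s⟩
    by_cases h : q' = q <;> simp [g, h, hf1]
  let ψ : graph' ≃g graph' :=
    { toEquiv := hg.toPerm
      map_rel_iff' := by
        rintro ⟨q1, s⟩ ⟨q2, t⟩
        show graph.Adj (coord (g (q1, s))) (coord (g (q2, t))) ↔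
          graph.Adj (coord (q1, s)) (coord (q2, t))
        rw [adj_coord, adj_coord]
        refine and_congr_right fun h => ?_
        have h' : q1 = q2 := h
        subst h'
        by_cases h1 : q1 = q <;> simp [g, h1, hf4] }
  have hd' := hd.transport iso.symm
  have := hd' ψ (by
    rintro ⟨q', s⟩
    show c (coord (g (q', s))) = c (coord (q', s))
    by_cases h : q' = q
    · subst h; simp [g, hf3]
    · simp [g, h]) (q, ∅)
  have h2 : g (q, ∅) = (q, ∅) := this
  apply hf2 ∅
  simpa [g] using h2

theorem mk_cantor : Cardinal.mk (ℕ → Bool) = Cardinal.continuum := by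
  simp

theorem borelDistNumber_graph : borelDistNumber graph = Cardinal.continuum := by
  have : {κ : Cardinal.{0} | ∃ (I : Type) (_ : MeasurableSpace I) (_ : StandardBorelSpace I)
      (c : (ℕ → Bool) → I), Measurable c ∧ IsDistinguishing graph c ∧ Cardinal.mk I = κ} =
      {Cardinal.continuum} := by
    ext κ
    constructor
    · rintro ⟨I, _, _, c, hc, hd, rfl⟩
      by_cases hI : Countable I
      · exact absurd hd (not_distinguishing hc)
      · rw [Set.mem_singleton_iff, ← mk_cantor]
        exact Cardinal.mk_congr (PolishSpace.measurableEquivNatBoolOfNotCountable hI).toEquiv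
    · rintro rfl
      exact ⟨ℕ → Bool, inferInstance, inferInstance, id, measurable_id, fun φ h => h, mk_cantor⟩
  rw [borelDistNumber, this, csInf_singleton]

theorem distNumber_graph : distNumber graph = 2 := by
  obtain ⟨c, hc⟩ := exists_two
  refine IsLeast.csInf_eq ⟨⟨Bool, c, hc, by simp⟩, ?_⟩
  rintro κ ⟨I, d, hd, rfl⟩
  by_contra hlt
  have hsub : Subsingleton I := by
    rw [← Cardinal.le_one_iff_subsingleton]
    by_contra h
    exact hlt (Cardinal.two_le_iff_one_lt.2 (lt_of_not_ge h))
  refine not_distinguishing (c := fun _ => ()) measurable_const fun φ _ => ?_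
  exact hd φ fun x => Subsingleton.elim _ _

theorem main : ∃ (X : Type) (_ : MeasurableSpace X) (_ : StandardBorelSpace X) (G : SimpleGraph X),
    MeasurableSet {p : X × X | G.Adj p.1 p.2} ∧ distNumber G = 2 ∧
      borelDistNumber G = Cardinal.continuum :=
  ⟨ℕ → Bool, inferInstance, inferInstance, graph, measurableSet_graph, distNumber_graph,
    borelDistNumber_graph⟩

end Pool.Agent.MP_591151_lc
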